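import Mathlib

/-!
# MP_ebdc6e_an: the OSSS inequality fails for fractional query algorithms

The counterexample computes the conjunction of two bits. It first moves `X_1` from `0` to `±1/2`.
If `X_1 = 1/2` it reveals the second bit, and then, if that bit is `1`, also the first bit.
If `X_1 = -1/2` it reveals the first bit, and then, if that bit is `1`, also the second bit.
It stops as soon as a revealed bit is `-1` or both bits are revealed. Here
`δ_1 = 13/16`, `δ_2 = 10/16`, both influences are `1/2`, so `∑ δ_i Inf_i = 23/32 < 3/4 = Var`.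
-/

set_option autoImplicit false

open MeasureTheory Filter Topology

namespace Pool.Agent.Results.MP_ebdc6e_an.AndTwoBits

/-- The bits are `true`, `false`; they stand for `1`, `-1`. -/
def sgn (b : Bool) : ℝ := if b then 1 else -1

/-- A point of the cube `{-1,1}^n` as a vector of real numbers. -/
def vec {n : ℕ} (x : Fin n → Bool) : Fin n → ℝ := fun i => sgn (x i)

/-- A fractional query algorithm for uniform inputs, in discrete time. The filtration is the
natural filtration of the process `X`, and `Xinf` is the terminal value `X(∞)`. -/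
structure FractionalQueryAlgorithm (n : ℕ) where
  /-- the probability space -/
  Ω : Type
  /-- its σ-algebra -/
  mΩ : MeasurableSpace Ω
  /-- its probability measure -/
  P : Measure Ω
  prob : IsProbabilityMeasure P
  /-- the process `X(t)` -/
  X : ℕ → Ω → (Fin n → ℝ)
  meas : ∀ t, StronglyMeasurable (X t)
  /-- the terminal value `X(∞)` -/
  Xinf : Ω → (Fin n → ℝ)
  range : ∀ t ω i, X t ω i ∈ Set.Icc (-1 : ℝ) 1
  start : ∀ ω, X 0 ω = 0
  terminal : ∀ᵐ ω ∂P, Tendsto (fun t => X t ω) atTop (𝓝 (Xinf ω))
  law : ∀ x : Fin n → Bool, P {ω | Xinf ω = vec x} = ((2 : ENNReal) ^ n)⁻¹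
  martingale : Martingale X (Filtration.natural X meas) P
  martingale_prod : ∀ S : Finset (Fin n),
    Martingale (fun t ω => ∏ i ∈ S, X t ω i) (Filtration.natural X meas) P
  /-- the stopping time `τ` -/
  τ : Ω → WithTop ℕ
  stopping : IsStoppingTime (Filtration.natural X meas) τ
  /-- the output map -/
  A : (Fin n → ℝ) → ℝ

namespace FractionalQueryAlgorithm

variable {n : ℕ} (Q : FractionalQueryAlgorithm n)

/-- `X(τ)`, where `X(∞)` is the terminal value. -/
noncomputable def stopped (ω : Q.Ω) : Fin n → ℝ :=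
  if Q.τ ω = ⊤ then Q.Xinf ω else Q.X (Q.τ ω).untopA ω

/-- The revealment `δ_i = E[X_i(τ)^2]` (recall `X(0) = 0`). -/
noncomputable def revealment (i : Fin n) : ℝ :=
  @integral Q.Ω ℝ _ _ Q.mΩ Q.P (fun ω => (Q.stopped ω i) ^ 2)

/-- `Q` computes `f` with `0` error: `A(X(τ)) = f(X(∞))` almost surely. -/
def Computes (f : (Fin n → Bool) → Bool) : Prop :=
  ∀ᵐ ω ∂(Q.P), ∀ x : Fin n → Bool, Q.Xinf ω = vec x → Q.A (Q.stopped ω) = sgn (f x)

end FractionalQueryAlgorithm

/-- The mean of `f` under the uniform measure. -/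
noncomputable def mean {n : ℕ} (f : (Fin n → Bool) → Bool) : ℝ :=
  (∑ x, sgn (f x)) / 2 ^ n

/-- The variance of `f` under the uniform measure. -/
noncomputable def variance {n : ℕ} (f : (Fin n → Bool) → Bool) : ℝ :=
  (∑ x, (sgn (f x) - mean f) ^ 2) / 2 ^ n

/-- The influence `μ{x : f(x) ≠ f(x with the i-th bit flipped)}`. -/
noncomputable def influence {n : ℕ} (f : (Fin n → Bool) → Bool) (i : Fin n) : ℝ :=
  ((Finset.univ.filter fun x : Fin n → Bool =>
    f x ≠ f (Function.update x i (!(x i)))).card : ℝ) / 2 ^ n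

/-- The conjunction of two bits. -/
def conj2 (x : Fin 2 → Bool) : Bool := x 0 && x 1

/-! ### the example -/

/-- peek, first bit, second bit -/
abbrev Om : Type := Bool × Bool × Bool

/-- weights -/
noncomputable def wt (ω : Om) : ℝ := if ω.1 = ω.2.1 then 3 / 16 else 1 / 16

lemma wt_nonneg (ω : Om) : 0 ≤ wt ω := by unfold wt; split_ifs <;> norm_num

/-- the probability measure -/
noncomputable def PP : Measure Om := Measure.sum fun ω : Om => ENNReal.ofReal (wt ω) • Measure.dirac ω

lemma PP_apply (s : Set Om) : PP s = ∑ ω : Om, ENNReal.ofReal (wt ω) * s.indicator 1 ω := by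
  unfold PP
  rw [Measure.sum_apply _ (Set.toFinite s).measurableSet, tsum_fintype]
  refine Finset.sum_congr rfl fun ω _ => ?_
  rw [Measure.smul_apply, Measure.dirac_apply' _ (Set.toFinite s).measurableSet, smul_eq_mul]

lemma PP_singleton (ω : Om) : PP {ω} = ENNReal.ofReal (wt ω) := by
  rw [PP_apply, Finset.sum_eq_single ω]
  · simp
  · intro b _ hb
    rw [Set.indicator_of_notMem (by simpa using hb), mul_zero]
  · intro h; exact absurd (Finset.mem_univ _) h

lemma sum_om {M : Type*} [AddCommMonoid M] (g : Om → M) : ∑ ω : Om, g ω =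
    g (true, true, true) + g (true, true, false) + (g (true, false, true) + g (true, false, false))
    + (g (false, true, true) + g (false, true, false) + (g (false, false, true) + g (false, false, false))) := by
  rw [Fintype.sum_prod_type]
  simp only [Fintype.sum_prod_type, Fintype.sum_bool]

instance : IsProbabilityMeasure PP := by
  constructor
  rw [PP_apply]
  simp only [Set.indicator_univ, Pi.one_apply, mul_one]
  rw [← ENNReal.ofReal_sum_of_nonneg (fun ω _ => wt_nonneg ω), sum_om]
  simp only [wt]
  norm_num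

lemma real_singleton (ω : Om) : PP.real {ω} = wt ω := by
  rw [Measure.real, PP_singleton, ENNReal.toReal_ofReal (wt_nonneg ω)]

lemma integral_PP {E : Type*} [NormedAddCommGroup E] [NormedSpace ℝ E] [CompleteSpace E]
    (g : Om → E) : ∫ ω, g ω ∂PP = ∑ ω : Om, wt ω • g ω := by
  rw [integral_fintype Integrable.of_finite]
  simp only [real_singleton]

/-- the process -/
noncomputable def XX : ℕ → Om → (Fin 2 → ℝ)
  | 0, _ => ![0, 0]
  | 1, ω => ![sgn ω.1 / 2, 0]
  | 2, ω => if ω.1 then ![1 / 2, sgn ω.2.2] else ![sgn ω.2.1, 0]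
  | _ + 3, ω => ![sgn ω.2.1, sgn ω.2.2]

lemma XX_meas (t : ℕ) : StronglyMeasurable (XX t) := StronglyMeasurable.of_discrete

/-- the information at the time `t`, for `t = 0, 1, 2` -/
def info : ℕ → Om → Bool × Bool
  | 0, _ => (true, true)
  | 1, ω => (ω.1, true)
  | _ + 2, ω => (ω.1, if ω.1 then ω.2.2 else ω.2.1)

lemma natural_le (t : ℕ) (ht : t ≤ 2) :
    (Filtration.natural XX XX_meas t : MeasurableSpace Om) ≤ MeasurableSpace.comap (info t) ⊤ := by
  refine iSup₂_le fun j hj => ?_
  obtain ⟨h, hh⟩ : ∃ h : Bool × Bool → (Fin 2 → ℝ), XX j = h ∘ info t := by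
    have key : ∀ ω ω' : Om, info t ω = info t ω' → XX j ω = XX j ω' := by
      intro ω ω' hω
      obtain ⟨p, a, b⟩ := ω
      obtain ⟨p', a', b'⟩ := ω'
      interval_cases t <;> interval_cases j <;> simp only [info, XX, Prod.mk.injEq] at hω ⊢
      · obtain ⟨h, -⟩ := hω; rw [h]
      · obtain ⟨h, -⟩ := hω; rw [h]
      · obtain ⟨h, h'⟩ := hω
        subst h
        cases p <;> simp_all
    obtain ⟨h, hh⟩ := (Function.factorsThrough_iff (f := info t) (XX j)).1 (fun ω ω' => key ω ω')
    exact ⟨h, hh⟩
  rw [hh, ← MeasurableSpace.comap_comp]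
  exact MeasurableSpace.comap_mono le_top

/-- the martingale property of a function of the process -/
lemma mart_of {E : Type*} [NormedAddCommGroup E] [NormedSpace ℝ E] [CompleteSpace E]
    (F : (Fin 2 → ℝ) → E) (hF : Continuous F)
    (h : ∀ t, t ≤ 2 → ∀ a : Bool × Bool,
      ∑ ω : Om, (if info t ω = a then wt ω • (F (XX (t + 1) ω) - F (XX t ω)) else 0) = 0) :
    Martingale (fun t ω => F (XX t ω)) (Filtration.natural XX XX_meas) PP := by
  refine martingale_of_setIntegral_eq_succ (fun t => ?_) (fun t => Integrable.of_finite) ?_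
  · exact hF.comp_stronglyMeasurable (Filtration.stronglyAdapted_natural XX_meas t)
  · intro t s hs
    rcases Nat.lt_or_ge 2 t with h2 | h2
    · have e : ∀ ω, XX t ω = XX (t + 1) ω := by
        intro ω
        obtain ⟨j, rfl⟩ : ∃ j, t = j + 3 := ⟨t - 3, by omega⟩
        rfl
      simp only [e]
    · classical
      obtain ⟨B, -, rfl⟩ := natural_le t h2 s hs
      have hms : MeasurableSet (info t ⁻¹' B) := (Set.toFinite _).measurableSet
      rw [← sub_eq_zero, ← integral_sub Integrable.of_finite Integrable.of_finite,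
        ← integral_indicator hms, integral_PP]
      have e : ∀ ω : Om, wt ω • (info t ⁻¹' B).indicator
          (fun ω => F (XX t ω) - F (XX (t + 1) ω)) ω =
          - ∑ a : Bool × Bool, (if a ∈ B then 1 else 0 : ℝ) •
            (if info t ω = a then wt ω • (F (XX (t + 1) ω) - F (XX t ω)) else 0) := by
        intro ω
        rw [Finset.sum_eq_single (info t ω)]
        · rw [if_pos rfl]
          by_cases hB : info t ω ∈ B
          · rw [Set.indicator_of_mem (by exact hB), if_pos hB, one_smul, ← smul_neg, neg_sub]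
          · rw [Set.indicator_of_notMem (by exact hB), if_neg hB, zero_smul, smul_zero, neg_zero]
        · intro b _ hb
          rw [if_neg (Ne.symm hb), smul_zero]
        · intro hn; exact absurd (Finset.mem_univ _) hn
      simp only [e]
      rw [Finset.sum_neg_distrib, Finset.sum_comm, neg_eq_zero]
      refine Finset.sum_eq_zero fun a _ => ?_
      rw [← Finset.smul_sum, h t h2 a, smul_zero]

lemma mart_X : Martingale XX (Filtration.natural XX XX_meas) PP := by
  refine mart_of (fun x => x) continuous_id ?_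
  intro t ht a
  obtain ⟨a1, a2⟩ := a
  ext i
  rw [sum_om]
  interval_cases t <;> cases a1 <;> cases a2 <;> fin_cases i <;>
    simp [info, XX, wt, sgn] <;> norm_num

lemma mart_prod (S : Finset (Fin 2)) :
    Martingale (fun t ω => ∏ i ∈ S, XX t ω i) (Filtration.natural XX XX_meas) PP := by
  refine mart_of (fun x => ∏ i ∈ S, x i) (by fun_prop) ?_
  intro t ht a
  obtain ⟨a1, a2⟩ := a
  have hS : S = ∅ ∨ S = {0} ∨ S = {1} ∨ S = {0, 1} := by
    revert S; decide
  rw [sum_om]
  rcases hS with rfl | rfl | rfl | rfl <;> interval_cases t <;> cases a1 <;> cases a2 <;>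
    simp [info, XX, wt, sgn] <;> norm_num

/-- the stopping time -/
def tau (ω : Om) : WithTop ℕ :=
  if (if ω.1 then ω.2.2 else ω.2.1) then WithTop.some 3 else WithTop.some 2

lemma tau_stopping : IsStoppingTime (Filtration.natural XX XX_meas) tau := by
  intro t
  have h0 : ∀ ω, (tau ω ≤ WithTop.some t ↔ (if (if ω.1 then ω.2.2 else ω.2.1) then 3 else 2) ≤ t) := by
    intro ω
    unfold tau
    split_ifs <;> exact WithTop.coe_le_coe
  have hs : {ω | tau ω ≤ WithTop.some t} =
      {ω : Om | (if (if ω.1 then ω.2.2 else ω.2.1) then 3 else 2) ≤ t} := by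
    ext ω; exact h0 ω
  rw [hs]
  rcases Nat.lt_or_ge t 2 with h | h
  · have e : {ω : Om | (if (if ω.1 then ω.2.2 else ω.2.1) then 3 else 2) ≤ t} = ∅ := by
      ext ω
      simp only [Set.mem_ofPred_eq, Set.mem_empty_iff_false, iff_false, not_le]
      split_ifs <;> omega
    rw [e]
    exact @MeasurableSet.empty _ (Filtration.natural XX XX_meas t)
  rcases Nat.lt_or_ge t 3 with h3 | h3
  · obtain rfl : t = 2 := by omega
    have e : {ω : Om | (if (if ω.1 then ω.2.2 else ω.2.1) then 3 else 2) ≤ 2} =
        XX 2 ⁻¹' {x | x 0 = -1 ∨ x 1 = -1} := by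
      ext ω
      obtain ⟨p, a, b⟩ := ω
      simp only [Set.mem_ofPred_eq, Set.mem_preimage, XX]
      cases p <;> cases a <;> cases b <;> simp [sgn] <;> norm_num
    rw [e]
    have h2 : MeasurableSet {x : Fin 2 → ℝ | x 0 = -1 ∨ x 1 = -1} :=
      ((measurableSet_singleton (-1 : ℝ)).preimage (measurable_pi_apply 0)).union
        ((measurableSet_singleton (-1 : ℝ)).preimage (measurable_pi_apply 1))
    exact (Filtration.stronglyAdapted_natural XX_meas 2).measurable h2
  · have e : {ω : Om | (if (if ω.1 then ω.2.2 else ω.2.1) then 3 else 2) ≤ t} = Set.univ := by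
      ext ω
      simp only [Set.mem_ofPred_eq, Set.mem_univ, iff_true]
      split_ifs <;> omega
    rw [e]
    exact @MeasurableSet.univ _ (Filtration.natural XX XX_meas t)

lemma law_XX (x : Fin 2 → Bool) :
    PP {ω | (![sgn ω.2.1, sgn ω.2.2] : Fin 2 → ℝ) = vec x} = ((2 : ENNReal) ^ 2)⁻¹ := by
  have e : ∀ ω : Om, ((![sgn ω.2.1, sgn ω.2.2] : Fin 2 → ℝ) = vec x) ↔
      (ω.2.1 = x 0 ∧ ω.2.2 = x 1) := by
    have hinj : ∀ a b : Bool, sgn a = sgn b ↔ a = b := by
      intro a b
      cases a <;> cases b <;> simp [sgn] <;> norm_num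
    intro ω
    rw [funext_iff, Fin.forall_fin_two]
    simp only [vec, Matrix.cons_val_zero, Matrix.cons_val_one, hinj]
  simp only [e]
  classical
  rw [PP_apply]
  have e2 : ∀ ω : Om, ENNReal.ofReal (wt ω) *
      ({ω : Om | ω.2.1 = x 0 ∧ ω.2.2 = x 1} : Set Om).indicator 1 ω =
      ENNReal.ofReal (if ω.2.1 = x 0 ∧ ω.2.2 = x 1 then wt ω else 0) := by
    intro ω
    by_cases h : ω.2.1 = x 0 ∧ ω.2.2 = x 1
    · rw [Set.indicator_of_mem (by exact h), if_pos h, Pi.one_apply, mul_one]
    · rw [Set.indicator_of_notMem (by exact h), if_neg h, mul_zero, ENNReal.ofReal_zero]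
  simp only [e2]
  rw [← ENNReal.ofReal_sum_of_nonneg (fun ω _ => by split_ifs; exacts [wt_nonneg ω, le_rfl]), sum_om]
  have h4 : ((2 : ENNReal) ^ 2)⁻¹ = ENNReal.ofReal (1 / 4) := by
    rw [one_div, ENNReal.ofReal_inv_of_pos (by norm_num)]
    norm_num
  rw [h4]
  congr 1
  cases h0 : x 0 <;> cases h1 : x 1 <;> simp [wt] <;> norm_num

/-- The fractional query algorithm for the conjunction of two bits. -/
noncomputable def alg : FractionalQueryAlgorithm 2 where
  Ω := Om
  mΩ := inferInstance
  P := PP
  prob := inferInstance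
  X := XX
  meas := XX_meas
  Xinf := fun ω => ![sgn ω.2.1, sgn ω.2.2]
  range := by
    intro t ω i
    obtain ⟨p, a, b⟩ := ω
    rcases t with _ | _ | _ | t <;> cases p <;> cases a <;> cases b <;> fin_cases i <;>
      simp [XX, sgn] <;> norm_num
  start := by
    intro ω
    ext i
    fin_cases i <;> simp [XX]
  terminal := by
    refine Eventually.of_forall fun ω => ?_
    refine tendsto_const_nhds.congr' ?_
    filter_upwards [eventually_ge_atTop 3] with t ht
    obtain ⟨j, rfl⟩ : ∃ j, t = j + 3 := ⟨t - 3, by omega⟩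
    rfl
  law := law_XX
  martingale := mart_X
  martingale_prod := mart_prod
  τ := tau
  stopping := tau_stopping
  A := fun x => if x 0 = -1 ∨ x 1 = -1 then -1 else 1

lemma stopped_eq (ω : Om) : alg.stopped ω =
    if (if ω.1 then ω.2.2 else ω.2.1) then XX 3 ω else XX 2 ω := by
  unfold FractionalQueryAlgorithm.stopped
  show (if tau ω = ⊤ then (![sgn ω.2.1, sgn ω.2.2] : Fin 2 → ℝ) else XX (tau ω).untopA ω) = _
  unfold tau
  obtain ⟨p, a, b⟩ := ω
  cases p <;> cases a <;> cases b <;> rfl

lemma revealment_eq (i : Fin 2) : alg.revealment i = if i = 0 then 13 / 16 else 10 / 16 := by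
  unfold FractionalQueryAlgorithm.revealment
  show ∫ ω : Om, (alg.stopped ω i) ^ 2 ∂PP = _
  rw [integral_PP, sum_om]
  simp only [stopped_eq]
  fin_cases i <;> simp [XX, wt, sgn] <;> norm_num

/-- **Counterexample.** Some fractional query algorithm computes the conjunction of two bits with
`0` error, but `∑ δ_i Inf_i = 23/32 < 3/4 = Var`. So the inequality of Q1 fails. -/
theorem result : ∃ Q : FractionalQueryAlgorithm 2, Q.Computes conj2 ∧
    variance conj2 = 3 / 4 ∧ ∑ i, Q.revealment i * influence conj2 i = 23 / 32 ∧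
    ∑ i, Q.revealment i * influence conj2 i < variance conj2 := by
  have hinf : ∀ i, influence conj2 i = 1 / 2 := by
    intro i
    unfold influence
    have : (Finset.univ.filter fun x : Fin 2 → Bool =>
        conj2 x ≠ conj2 (Function.update x i (!(x i)))).card = 2 := by
      revert i; decide
    rw [this]; norm_num
  have hsum : ∀ g : (Fin 2 → Bool) → ℝ, ∑ x, g x =
      g ![true, true] + g ![true, false] + g ![false, true] + g ![false, false] := by
    intro g
    have : (Finset.univ : Finset (Fin 2 → Bool)) =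
        {![true, true], ![true, false], ![false, true], ![false, false]} := by decide
    rw [this, Finset.sum_insert (by decide), Finset.sum_insert (by decide),
      Finset.sum_insert (by decide), Finset.sum_singleton]
    ring
  have hmean : mean conj2 = -(1 / 2) := by
    unfold mean
    rw [hsum]
    simp [conj2, sgn]
    norm_num
  have hvar : variance conj2 = 3 / 4 := by
    unfold variance
    rw [hsum, hmean]
    simp [conj2, sgn]
    norm_num
  have hS : ∑ i, alg.revealment i * influence conj2 i = 23 / 32 := by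
    rw [Fin.sum_univ_two, revealment_eq, revealment_eq, hinf, hinf]
    norm_num
  refine ⟨alg, ?_, hvar, hS, by rw [hS, hvar]; norm_num⟩
  refine Eventually.of_forall ?_
  intro (ω : Om) x hx
  have hinj : ∀ a b : Bool, sgn a = sgn b ↔ a = b := by
    intro a b
    cases a <;> cases b <;> simp [sgn] <;> norm_num
  have hx' : (![sgn ω.2.1, sgn ω.2.2] : Fin 2 → ℝ) = vec x := hx
  rw [funext_iff, Fin.forall_fin_two] at hx'
  simp only [vec, Matrix.cons_val_zero, Matrix.cons_val_one, hinj] at hx'
  have hst := stopped_eq ω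
  show (if alg.stopped ω 0 = -1 ∨ alg.stopped ω 1 = -1 then (-1 : ℝ) else 1) = sgn (x 0 && x 1)
  rw [hst, ← hx'.1, ← hx'.2]
  obtain ⟨p, a, b⟩ := ω
  cases p <;> cases a <;> cases b <;> simp [XX, sgn] <;> norm_num

end Pool.Agent.Results.MP_ebdc6e_an.AndTwoBits
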